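import Pool.Agent.Lib.MP_245544_coT.Defs

namespace Pool.Agent.MP_245544_coT

/-- A compact nonempty set has a lexicographically smallest point. -/
theorem exists_lexmin {K : Set (ℝ × ℝ)} (hK : IsCompact K) (hne : K.Nonempty) :
    ∃ q ∈ K, ∀ z ∈ K, toLex q ≤ toLex z := by
  obtain ⟨q1, hq1, hmin1⟩ := hK.exists_isMinOn hne (continuous_fst.continuousOn (s := K))
  have hK' : IsCompact (K ∩ {z : ℝ × ℝ | z.1 = q1.1}) :=
    hK.inter_right (isClosed_eq continuous_fst continuous_const)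
  obtain ⟨q2, hq2, hmin2⟩ := hK'.exists_isMinOn ⟨q1, hq1, rfl⟩
    (continuous_snd.continuousOn (s := K ∩ {z : ℝ × ℝ | z.1 = q1.1}))
  refine ⟨q2, hq2.1, fun z hz => ?_⟩
  have h1 : q1.1 ≤ z.1 := hmin1 hz
  have h2 : q2.1 = q1.1 := hq2.2
  rw [Prod.Lex.toLex_le_toLex]
  rcases lt_or_eq_of_le h1 with h | h
  · left
    rw [h2]
    exact h
  · right
    refine ⟨h2.trans h, ?_⟩
    exact hmin2 (show z ∈ K ∩ {z : ℝ × ℝ | z.1 = q1.1} from ⟨hz, h.symm⟩)

open Filter Topology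

private theorem low_event (k q : ℝ × ℝ) (h : toLex k ≤ toLex q) :
    ∀ᶠ δ in 𝓝[>] (0 : ℝ), fn δ k ≤ fn δ q := by
  rw [Prod.Lex.toLex_le_toLex] at h
  rcases h with h | ⟨h, h'⟩
  · have hc : Tendsto (fun δ : ℝ => fn δ q - fn δ k) (𝓝[>] (0 : ℝ)) (𝓝 (fn 0 q - fn 0 k)) := by
      have : Continuous fun δ : ℝ => fn δ q - fn δ k := by
        unfold fn
        fun_prop
      exact (this.tendsto 0).mono_left nhdsWithin_le_nhds
    have hpos : 0 < fn 0 q - fn 0 k := by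
      unfold fn
      simp only [zero_mul, add_zero]
      linarith
    filter_upwards [hc.eventually (lt_mem_nhds hpos)] with δ hδ
    linarith
  · filter_upwards [self_mem_nhdsWithin] with δ hδ
    have hδ' : (0 : ℝ) < δ := hδ
    unfold fn
    rw [h]
    have := mul_le_mul_of_nonneg_left h' hδ'.le
    linarith

private theorem high_event {K : Set (ℝ × ℝ)} (hK : IsCompact K) (q : ℝ × ℝ)
    (h : ∀ z ∈ K, toLex q < toLex z) :
    ∀ᶠ δ in 𝓝[>] (0 : ℝ), ∀ z ∈ K, fn δ q < fn δ z := by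
  have hK' : IsCompact (K ∩ {z : ℝ × ℝ | z.2 ≤ q.2}) :=
    hK.inter_right (isClosed_le continuous_snd continuous_const)
  have hup : ∀ δ : ℝ, 0 < δ → ∀ z ∈ K, q.2 < z.2 → fn δ q < fn δ z := by
    intro δ hδ z hz hz2
    have h1 : q.1 ≤ z.1 := by
      have := h z hz
      rw [Prod.Lex.toLex_lt_toLex] at this
      rcases this with h' | ⟨h', -⟩
      · exact h'.le
      · exact h'.le
    have := mul_lt_mul_of_pos_left hz2 hδ
    unfold fn
    linarith
  rcases (K ∩ {z : ℝ × ℝ | z.2 ≤ q.2}).eq_empty_or_nonempty with he | hne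
  · filter_upwards [self_mem_nhdsWithin] with δ hδ z hz
    refine hup δ hδ z hz ?_
    by_contra hcon
    have : z ∈ (K ∩ {z : ℝ × ℝ | z.2 ≤ q.2}) := ⟨hz, not_lt.mp hcon⟩
    rw [he] at this
    exact this
  · obtain ⟨a, ha, hamin⟩ := hK'.exists_isMinOn hne
      (continuous_fst.continuousOn (s := K ∩ {z : ℝ × ℝ | z.2 ≤ q.2}))
    obtain ⟨b, hb, hbmin⟩ := hK'.exists_isMinOn hne
      (continuous_snd.continuousOn (s := K ∩ {z : ℝ × ℝ | z.2 ≤ q.2}))
    have ha1 : q.1 < a.1 := by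
      have := h a ha.1
      rw [Prod.Lex.toLex_lt_toLex] at this
      rcases this with h' | ⟨-, h''⟩
      · exact h'
      · exact absurd ha.2 (not_le.mpr h'')
    have hpos : 0 < (a.1 - q.1) := by linarith
    have hc : Tendsto (fun δ : ℝ => (a.1 - q.1) + δ * (b.2 - q.2)) (𝓝[>] (0 : ℝ))
        (𝓝 ((a.1 - q.1) + 0 * (b.2 - q.2))) := by
      have : Continuous fun δ : ℝ => (a.1 - q.1) + δ * (b.2 - q.2) := by fun_prop
      exact (this.tendsto 0).mono_left nhdsWithin_le_nhds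
    rw [zero_mul, add_zero] at hc
    filter_upwards [hc.eventually (lt_mem_nhds hpos), self_mem_nhdsWithin] with δ hδ hδ0 z hz
    have hδ' : (0 : ℝ) < δ := hδ0
    rcases lt_or_ge q.2 z.2 with h2 | h2
    · exact hup δ hδ' z hz h2
    · have hz' : z ∈ (K ∩ {z : ℝ × ℝ | z.2 ≤ q.2}) := ⟨hz, h2⟩
      have h3 : a.1 ≤ z.1 := hamin hz'
      have h4 : b.2 ≤ z.2 := hbmin hz'
      have := mul_le_mul_of_nonneg_left h4 hδ'.le
      unfold fn
      nlinarith

private theorem ne_event (a b : ℝ) : ∀ᶠ c in 𝓝[>] a, b ≠ c := by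
  rcases lt_or_ge a b with h | h
  · filter_upwards [Ioo_mem_nhdsGT h] with c hc
    exact hc.2.ne'
  · filter_upwards [self_mem_nhdsWithin] with c hc
    exact (lt_of_le_of_lt h hc).ne

/-- A closed half plane that meets exactly the sets with key `≤ q₀`, with no point of `Z` on its
boundary. -/
theorem exists_halfplane {ι : Type} [Finite ι] {κ : Type} [Finite κ] (K : ι → Set (ℝ × ℝ))
    (hK : ∀ i, IsCompact (K i)) (key : ι → ℝ × ℝ) (hkey : ∀ i, key i ∈ K i)
    (hmin : ∀ i, ∀ z ∈ K i, toLex (key i) ≤ toLex z) (Z : κ → ℝ × ℝ) (q₀ : ℝ × ℝ) :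
    ∃ δ c : ℝ, (∀ i, (∃ z ∈ K i, fn δ z ≤ c) ↔ toLex (key i) ≤ toLex q₀) ∧ ∀ j, fn δ (Z j) ≠ c := by
  have h1 : ∀ᶠ δ in 𝓝[>] (0 : ℝ), ∀ i, (toLex (key i) ≤ toLex q₀ → fn δ (key i) ≤ fn δ q₀) ∧
      (toLex q₀ < toLex (key i) → ∀ z ∈ K i, fn δ q₀ < fn δ z) := by
    rw [eventually_all]
    intro i
    rcases le_or_gt (toLex (key i)) (toLex q₀) with h | h
    · filter_upwards [low_event _ _ h] with δ hδ
      exact ⟨fun _ => hδ, fun h' => absurd h (not_le.mpr h')⟩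
    · filter_upwards [high_event (hK i) q₀ (fun z hz => lt_of_lt_of_le h (hmin i z hz))] with δ hδ
      exact ⟨fun h' => absurd h' (not_le.mpr h), fun _ => hδ⟩
  obtain ⟨δ, hδ⟩ := h1.exists
  have h2 : ∀ᶠ c in 𝓝[>] (fn δ q₀), (∀ i, toLex q₀ < toLex (key i) → ∀ z ∈ K i, c < fn δ z) ∧
      (∀ j, fn δ (Z j) ≠ c) := by
    refine Filter.Eventually.and ?_ ?_
    · rw [eventually_all]
      intro i
      rcases le_or_gt (toLex (key i)) (toLex q₀) with h | h
      · exact Eventually.of_forall fun c h' => absurd h (not_le.mpr h')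
      · have hcont : Continuous (fn δ) := by
          unfold fn
          fun_prop
        obtain ⟨a, ha, hamin⟩ := (hK i).exists_isMinOn ⟨key i, hkey i⟩ hcont.continuousOn
        have h3 : fn δ q₀ < fn δ a := (hδ i).2 h a ha
        filter_upwards [Ioo_mem_nhdsGT h3] with c hc _ z hz
        exact lt_of_lt_of_le hc.2 (hamin hz)
    · rw [eventually_all]
      intro j
      exact ne_event _ _
  obtain ⟨c, ⟨hc1, hc2⟩, hc3⟩ := (h2.and self_mem_nhdsWithin).exists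
  have hc3' : fn δ q₀ < c := hc3
  refine ⟨δ, c, fun i => ⟨?_, ?_⟩, hc2⟩
  · rintro ⟨z, hz, hzc⟩
    by_contra hcon
    exact absurd hzc (not_le.mpr (hc1 i (not_le.mp hcon) z hz))
  · intro h
    exact ⟨key i, hkey i, ((hδ i).1 h).trans hc3'.le⟩

variable {V : Type} {G : SimpleGraph V}

theorem Drawing.isCompact_arc (D : Drawing G) {e : Sym2 V} (he : e ∈ G.edgeSet) :
    IsCompact (D.arc e) := by
  induction e using Sym2.ind with
  | _ u v =>
    obtain ⟨γ, hγ, -, -, -, hr⟩ := D.isArc u v he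
    rw [← hr]
    exact isCompact_range hγ

/-- The key of an edge: the lexicographically smallest point of its arc. -/
theorem Drawing.exists_key (D : Drawing G) :
    ∃ key : Sym2 V → ℝ × ℝ, ∀ e ∈ G.edgeSet, key e ∈ D.arc e ∧ ∀ z ∈ D.arc e, toLex (key e) ≤ toLex z := by
  have h : ∀ e : Sym2 V, ∃ k : ℝ × ℝ, e ∈ G.edgeSet → k ∈ D.arc e ∧ ∀ z ∈ D.arc e, toLex k ≤ toLex z := by
    intro e
    by_cases he : e ∈ G.edgeSet
    · have hne : (D.arc e).Nonempty := by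
        induction e using Sym2.ind with
        | _ u v =>
          obtain ⟨γ, hγ, -, -, -, hr⟩ := D.isArc u v he
          rw [← hr]
          exact Set.range_nonempty γ
      obtain ⟨q, hq, hq'⟩ := exists_lexmin (D.isCompact_arc he) hne
      exact ⟨q, fun _ => ⟨hq, hq'⟩⟩
    · exact ⟨0, fun h => absurd h he⟩
  choose key hkey using h
  exact ⟨key, hkey⟩

/-- Half plane for a threshold `q₀`. -/
theorem Drawing.exists_halfplane [Finite V] (D : Drawing G) {key : Sym2 V → ℝ × ℝ}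
    (hkey : ∀ e ∈ G.edgeSet, key e ∈ D.arc e ∧ ∀ z ∈ D.arc e, toLex (key e) ≤ toLex z) (q₀ : ℝ × ℝ) :
    ∃ δ c : ℝ, (∀ e ∈ G.edgeSet, (∃ z ∈ D.arc e, fn δ z ≤ c) ↔ toLex (key e) ≤ toLex q₀) ∧
      ∀ v, fn δ (D.pt v) ≠ c := by
  have : Finite (Sym2 V) := Quot.finite _
  have : Finite G.edgeSet := Subtype.finite
  obtain ⟨δ, c, h1, h2⟩ := Pool.Agent.MP_245544_coT.exists_halfplane
    (ι := G.edgeSet) (κ := V) (fun e => D.arc e) (fun e => D.isCompact_arc e.2) (fun e => key e)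
    (fun e => (hkey e e.2).1) (fun e => (hkey e e.2).2) D.pt q₀
  exact ⟨δ, c, fun e he => h1 ⟨e, he⟩, h2⟩

end Pool.Agent.MP_245544_coT
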