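import Pool.Agent.Lib.MP_245544_coT.Near

namespace Pool.Agent.MP_245544_coT

variable {V : Type} {G : SimpleGraph V}

/-- Edges inside `S` through one point. -/
theorem tie_bound [Fintype V] [DecidableEq V] (D : Drawing G) (hD : D.NearPlane 4) (S : Finset V)
    (T : Finset (Sym2 V)) (hT : T ⊆ edgesIn G S) (q₀ : ℝ × ℝ) (hq : ∀ e ∈ T, q₀ ∈ D.arc e) :
    T.card ≤ S.card := by
  classical
  by_cases h0 : ∃ w0, q₀ = D.pt w0
  · obtain ⟨w0, rfl⟩ := h0
    have hmem : ∀ e ∈ T, w0 ∈ e := fun e he =>
      D.avoid e (mem_edgesIn.1 (hT he)).1 w0 (hq e he)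
    refine Finset.card_le_card_of_injOn
      (fun e => if h : w0 ∈ e then Sym2.Mem.other h else w0) ?_ ?_
    · intro e he
      have h := hmem e he
      simp only [h, dif_pos]
      exact (mem_edgesIn.1 (hT he)).2 _ (Sym2.other_mem h)
    · intro e he e' he' hee
      have h := hmem e he
      have h' := hmem e' he'
      simp only [h, h', dif_pos] at hee
      rw [← Sym2.other_spec h, ← Sym2.other_spec h', hee]
  · push Not at h0
    refine Finset.card_le_card_of_injOn (fun e => e.out.1) ?_ ?_
    · intro e he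
      exact (mem_edgesIn.1 (hT he)).2 _ (Sym2.out_fst_mem e)
    · intro e he e' he' hee
      by_contra hne
      have h1 : e.out.1 ∈ e := Sym2.out_fst_mem e
      have h2 : e.out.1 ∈ e' := by
        have : e'.out.1 ∈ e' := Sym2.out_fst_mem e'
        have hee' : e.out.1 = e'.out.1 := hee
        rw [hee']
        exact this
      obtain ⟨w, _, _, hw⟩ := hD.inter (mem_edgesIn.1 (hT he)).1 (mem_edgesIn.1 (hT he')).1 hne
        ⟨e.out.1, h1, e.out.1, h2, SimpleGraph.Walk.nil, by simp⟩ (hq e he) (hq e' he')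
      exact h0 w hw

end Pool.Agent.MP_245544_coT
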