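import Pool.Agent.Lib.MP_245544_coT.Step

namespace Pool.Agent.MP_245544_coT

variable {V : Type} {G : SimpleGraph V}

/-- The ends of the pair have different colours. -/
private def Bi (col : V → Bool) (e : Sym2 V) : Prop := ∃ u v, e = s(u, v) ∧ col u ≠ col v

private theorem bi_mk {col : V → Bool} {u v : V} : Bi col s(u, v) ↔ col u ≠ col v := by
  constructor
  · rintro ⟨a, b, h, hab⟩
    rcases Sym2.eq_iff.mp h with ⟨rfl, rfl⟩ | ⟨rfl, rfl⟩
    · exact hab
    · exact fun h => hab h.symm
  · intro h
    exact ⟨u, v, rfl, h⟩

/-- The subgraph of the bichromatic edges. -/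
private def biG (G : SimpleGraph V) (col : V → Bool) : SimpleGraph V where
  Adj u v := G.Adj u v ∧ col u ≠ col v
  symm := ⟨fun _ _ h => ⟨h.1.symm, h.2.symm⟩⟩
  loopless := ⟨fun _ h => h.2 rfl⟩

private theorem mem_biG {col : V → Bool} {e : Sym2 V} :
    e ∈ (biG G col).edgeSet ↔ e ∈ G.edgeSet ∧ Bi col e := by
  induction e using Sym2.ind with
  | _ u v =>
    rw [SimpleGraph.mem_edgeSet, SimpleGraph.mem_edgeSet, bi_mk]
    exact Iff.rfl

private theorem half [Fintype V] [DecidableEq V] [∀ (col : V → Bool) (e : Sym2 V), Decidable (Bi col e)]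
    {e : Sym2 V} (he : e ∈ G.edgeSet) :
    2 * (Finset.univ.filter fun col : V → Bool => Bi col e).card =
      (Finset.univ : Finset (V → Bool)).card := by
  induction e using Sym2.ind with
  | _ u v =>
    rw [SimpleGraph.mem_edgeSet] at he
    have hne : v ≠ u := he.ne'
    have h1 : (Finset.univ.filter fun col : V → Bool => Bi col s(u, v)).card =
        (Finset.univ.filter fun col : V → Bool => ¬ Bi col s(u, v)).card := by
      refine Finset.card_bij' (fun col _ => Function.update col u (!col u))
        (fun col _ => Function.update col u (!col u)) ?_ ?_ ?_ ?_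
      · intro col hc
        simp only [Finset.mem_filter, Finset.mem_univ, true_and, bi_mk] at hc ⊢
        rw [Function.update_self, Function.update_of_ne hne]
        intro h
        apply h
        revert hc
        cases col u <;> cases col v <;> simp
      · intro col hc
        simp only [Finset.mem_filter, Finset.mem_univ, true_and, bi_mk] at hc ⊢
        rw [Function.update_self, Function.update_of_ne hne]
        revert hc
        cases col u <;> cases col v <;> simp
      · intro col _
        simp
      · intro col _
        simp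
    have h2 := Finset.card_filter_add_card_filter_not (s := (Finset.univ : Finset (V → Bool)))
      (fun col : V → Bool => Bi col s(u, v))
    omega

/-- Max cut: a bipartite subgraph with at least half of the edges. -/
theorem exists_bip [Fintype V] [DecidableEq V] (G : SimpleGraph V) :
    ∃ (G' : SimpleGraph V) (col : V → Bool), G' ≤ G ∧ (∀ u v, G'.Adj u v → col u ≠ col v) ∧
      (edgesIn G Finset.univ).card ≤ 2 * (edgesIn G' Finset.univ).card := by
  classical
  have hfil : ∀ col : V → Bool, edgesIn (biG G col) Finset.univ =
      (edgesIn G Finset.univ).filter (Bi col) := by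
    intro col
    ext e
    rw [Finset.mem_filter, mem_edgesIn, mem_edgesIn, mem_biG]
    tauto
  have hsum : ∑ _col : V → Bool, (edgesIn G Finset.univ).card ≤
      ∑ col : V → Bool, 2 * (edgesIn (biG G col) Finset.univ).card := by
    rw [← Finset.mul_sum]
    simp_rw [hfil]
    have h3 := Finset.sum_card_bipartiteAbove_eq_sum_card_bipartiteBelow
      (s := (Finset.univ : Finset (V → Bool))) (t := edgesIn G Finset.univ) Bi
    unfold Finset.bipartiteAbove Finset.bipartiteBelow at h3
    rw [h3, Finset.mul_sum, Finset.sum_congr rfl fun e he => half (mem_edgesIn.mp he).1,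
      Finset.sum_const, Finset.sum_const, smul_eq_mul, smul_eq_mul, mul_comm]
  obtain ⟨col, -, hcol⟩ := Finset.exists_le_of_sum_le Finset.univ_nonempty hsum
  exact ⟨biG G col, col, fun u v h => h.1, fun u v h => h.2, hcol⟩

theorem edges_bound [Fintype V] [DecidableEq V] (D : Drawing G) {k : ℕ} (hk : 7 ≤ k)
    (hD : D.CrossingsFar k) :
    G.edgeSet.ncard ≤ 10 * Fintype.card V * Nat.log 2 (Fintype.card V) := by
  obtain ⟨G', col, hle, hcol, hcard⟩ := exists_bip G
  have hnp : (D.restrict hle).NearPlane 4 := (hD.nearPlane (m := 4) (by omega)).restrict hle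
  have hb := bip_bound (D.restrict hle) hnp col hcol Finset.univ
  have hE : G.edgeSet.ncard = (edgesIn G Finset.univ).card := by
    rw [← Set.ncard_coe_finset]
    congr 1
    ext e
    rw [Finset.mem_coe, mem_edgesIn]
    simp
  rw [Finset.card_univ] at hb
  rw [hE]
  calc (edgesIn G Finset.univ).card ≤ 2 * (edgesIn G' Finset.univ).card := hcard
    _ ≤ 2 * (5 * Fintype.card V * Nat.log 2 (Fintype.card V)) := Nat.mul_le_mul_left 2 hb
    _ = 10 * Fintype.card V * Nat.log 2 (Fintype.card V) := by ring

theorem maxEdges_le {k n : ℕ} (hk : 7 ≤ k) : maxEdges k n ≤ 10 * n * Nat.log 2 n := by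
  refine csSup_le' ?_
  rintro m ⟨G, D, hD, rfl⟩
  have h := edges_bound D hk hD
  rwa [Fintype.card_fin] at h

end Pool.Agent.MP_245544_coT
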