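import Pool.Agent.Lib.MP_245544_coT.Defs

namespace Pool.Agent.MP_245544_coT

open Set

private theorem phase_nonneg {φ : ℝ → ℝ} (hφ : Continuous φ) (h0 : φ 0 = 0)
    (h : ∀ t ∈ Icc (0 : ℝ) 1, 0 ≤ Real.sin (φ t)) : 0 ≤ φ 1 ∧ φ 1 ≤ Real.pi := by
  have hpi := Real.pi_pos
  constructor
  · by_contra hneg
    rw [not_le] at hneg
    have hv : max (φ 1) (-(Real.pi / 2)) ∈ Icc (φ 1) (φ 0) := by
      rw [h0]
      exact ⟨le_max_left _ _, max_le hneg.le (by linarith)⟩
    obtain ⟨t, ht, hte⟩ := intermediate_value_Icc' (zero_le_one' ℝ) hφ.continuousOn hv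
    have h1 := h t ht
    rw [hte] at h1
    have h2 : Real.sin (max (φ 1) (-(Real.pi / 2))) < 0 := by
      apply Real.sin_neg_of_neg_of_neg_pi_lt
      · exact max_lt hneg (by linarith)
      · exact lt_of_lt_of_le (by linarith) (le_max_right _ _)
    linarith
  · by_contra hneg
    rw [not_le] at hneg
    have hv : min (φ 1) (Real.pi + Real.pi / 2) ∈ Icc (φ 0) (φ 1) := by
      rw [h0]
      exact ⟨le_min (by linarith) (by linarith), min_le_left _ _⟩
    obtain ⟨t, ht, hte⟩ := intermediate_value_Icc (zero_le_one' ℝ) hφ.continuousOn hv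
    have h1 := h t ht
    rw [hte] at h1
    have h2 : Real.sin (min (φ 1) (Real.pi + Real.pi / 2)) < 0 := by
      have e : min (φ 1) (Real.pi + Real.pi / 2) =
          (min (φ 1) (Real.pi + Real.pi / 2) - Real.pi) + Real.pi := by ring
      rw [e, Real.sin_add_pi, neg_lt_zero]
      apply Real.sin_pos_of_pos_of_lt_pi
      · have : Real.pi < min (φ 1) (Real.pi + Real.pi / 2) := lt_min hneg (by linarith)
        linarith
      · have : min (φ 1) (Real.pi + Real.pi / 2) ≤ Real.pi + Real.pi / 2 := min_le_right _ _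
        linarith
    linarith

/-- Two paths in the closed right half plane whose end points on the boundary line interleave meet. -/
theorem paths_meet {γ η : unitInterval → ℝ × ℝ} (hγ : Continuous γ) (hη : Continuous η)
    (hγ0 : ∀ t, 0 ≤ (γ t).1) (hη0 : ∀ t, 0 ≤ (η t).1)
    (h1 : (γ 0).1 = 0) (h2 : (γ 1).1 = 0) (h3 : (η 0).1 = 0) (h4 : (η 1).1 = 0)
    (h5 : (γ 0).2 < (η 0).2) (h6 : (η 0).2 < (γ 1).2) (h7 : (γ 1).2 < (η 1).2) :
    ∃ s t, γ s = η t := by
  by_contra hne
  push Not at hne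
  set pr : ℝ → unitInterval := Set.projIcc (0 : ℝ) 1 zero_le_one with hpr
  have hprc : Continuous pr := continuous_projIcc
  have hpr0 : pr 0 = 0 := Set.projIcc_left _
  have hpr1 : pr 1 = 1 := Set.projIcc_right _
  set G : ℝ × ℝ → ℂ := fun z => (((γ (pr z.1)).1 - (η (pr z.2)).1 : ℝ) : ℂ) +
    (((γ (pr z.1)).2 - (η (pr z.2)).2 : ℝ) : ℂ) * Complex.I with hG
  have hGre : ∀ z, (G z).re = (γ (pr z.1)).1 - (η (pr z.2)).1 := by
    intro z; simp [hG]
  have hGim : ∀ z, (G z).im = (γ (pr z.1)).2 - (η (pr z.2)).2 := by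
    intro z; simp [hG]
  have hGc : Continuous G := by
    simp only [hG]
    fun_prop
  have hG0 : ∀ z, G z ≠ 0 := by
    intro z hz
    apply hne (pr z.1) (pr z.2)
    have e1 := hGre z
    have e2 := hGim z
    rw [hz] at e1 e2
    simp only [Complex.zero_re, Complex.zero_im] at e1 e2
    exact Prod.ext (by linarith) (by linarith)
  have hsc : IsSimplyConnected (univ : Set (ℝ × ℝ)) := by
    have : ContractibleSpace (univ : Set (ℝ × ℝ)) := convex_univ.contractibleSpace univ_nonempty
    exact SimplyConnectedSpace.ofContractible _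
  obtain ⟨f, hfc, hf⟩ := Complex.exists_continuousOn_eqOn_exp_comp hsc isOpen_univ
    hGc.continuousOn (by rintro ⟨z, -, hz⟩; exact hG0 z hz)
  rw [continuousOn_univ] at hfc
  have hfe : ∀ z, Complex.exp (f z) = G z := fun z => hf (mem_univ z)
  have hre : ∀ z, Real.exp (f z).re * Real.cos (f z).im = (γ (pr z.1)).1 - (η (pr z.2)).1 := by
    intro z
    rw [← hGre, ← hfe, Complex.exp_re]
  have him : ∀ z, Real.exp (f z).re * Real.sin (f z).im = (γ (pr z.1)).2 - (η (pr z.2)).2 := by
    intro z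
    rw [← hGim, ← hfe, Complex.exp_im]
  set θ : ℝ × ℝ → ℝ := fun z => (f z).im with hθ
  have hθc : Continuous θ := Complex.continuous_im.comp hfc
  have hcos0 : ∀ z, (γ (pr z.1)).1 - (η (pr z.2)).1 = 0 → Real.cos (θ z) = 0 := by
    intro z hz
    have := hre z
    rw [hz] at this
    rcases mul_eq_zero.1 this with h | h
    · exact absurd h (Real.exp_pos _).ne'
    · exact h
  have hsin : ∀ z, (γ (pr z.1)).1 - (η (pr z.2)).1 = 0 → (γ (pr z.1)).2 - (η (pr z.2)).2 < 0 →
      Real.sin (θ z) = -1 := by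
    intro z hz hz2
    have hc := hcos0 z hz
    have hs := Real.sin_sq_add_cos_sq (θ z)
    rw [hc] at hs
    have hlt : Real.sin (θ z) < 0 := by
      have := him z
      have hp := Real.exp_pos (f z).re
      by_contra hcon
      rw [not_lt] at hcon
      have : 0 ≤ Real.exp (f z).re * Real.sin (θ z) := mul_nonneg hp.le hcon
      linarith
    nlinarith
  have hsin' : ∀ z, (γ (pr z.1)).1 - (η (pr z.2)).1 = 0 → 0 < (γ (pr z.1)).2 - (η (pr z.2)).2 →
      Real.sin (θ z) = 1 := by
    intro z hz hz2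
    have hc := hcos0 z hz
    have hs := Real.sin_sq_add_cos_sq (θ z)
    rw [hc] at hs
    have hlt : 0 < Real.sin (θ z) := by
      have := him z
      have hp := Real.exp_pos (f z).re
      by_contra hcon
      rw [not_lt] at hcon
      have : Real.exp (f z).re * Real.sin (θ z) ≤ 0 := mul_nonpos_of_nonneg_of_nonpos hp.le hcon
      linarith
    nlinarith
  have hcn : ∀ z, 0 ≤ (γ (pr z.1)).1 - (η (pr z.2)).1 → 0 ≤ Real.cos (θ z) := by
    intro z hz
    rw [← hre z] at hz
    exact nonneg_of_mul_nonneg_right hz (Real.exp_pos _)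
  have hcp : ∀ z, (γ (pr z.1)).1 - (η (pr z.2)).1 ≤ 0 → Real.cos (θ z) ≤ 0 := by
    intro z hz
    rw [← hre z] at hz
    by_contra hcon
    rw [not_le] at hcon
    have := mul_pos (Real.exp_pos (f z).re) hcon
    linarith
  have c00 : Real.cos (θ (0, 0)) = 0 := hcos0 _ (by simp only [hpr0]; linarith)
  have c01 : Real.cos (θ (0, 1)) = 0 := hcos0 _ (by simp only [hpr0, hpr1]; linarith)
  have c10 : Real.cos (θ (1, 0)) = 0 := hcos0 _ (by simp only [hpr0, hpr1]; linarith)
  have s00 : Real.sin (θ (0, 0)) = -1 :=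
    hsin _ (by simp only [hpr0]; linarith) (by simp only [hpr0]; linarith)
  have s01 : Real.sin (θ (0, 1)) = -1 :=
    hsin _ (by simp only [hpr0, hpr1]; linarith) (by simp only [hpr0, hpr1]; linarith)
  have s11 : Real.sin (θ (1, 1)) = -1 :=
    hsin _ (by simp only [hpr1]; linarith) (by simp only [hpr1]; linarith)
  have s10 : Real.sin (θ (1, 0)) = 1 :=
    hsin' _ (by simp only [hpr0, hpr1]; linarith) (by simp only [hpr0, hpr1]; linarith)
  have hpi := Real.pi_pos
  -- side s = 0
  have A : θ (0, 1) = θ (0, 0) := by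
    have h := phase_nonneg (φ := fun t => -(θ (0, t) - θ (0, 0)))
      ((hθc.comp (by fun_prop : Continuous fun t : ℝ => ((0 : ℝ), t))).sub continuous_const).neg
      (by simp) (by
        intro t _
        have h8 : Real.cos (θ (0, t)) ≤ 0 := hcp _ (by
          simp only [hpr0]; have := hη0 (pr t); linarith)
        rw [Real.sin_neg, Real.sin_sub, c00, s00]
        linarith)
    have h9 : Real.cos (-(θ (0, 1) - θ (0, 0))) = 1 := by
      rw [Real.cos_neg, Real.cos_sub, c00, s00, s01]; ring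
    have h10 := (Real.cos_eq_one_iff_of_lt_of_lt (by linarith [h.1]) (by linarith [h.2])).1 h9
    linarith
  have B : θ (1, 1) = θ (0, 1) := by
    have h := phase_nonneg (φ := fun s => θ (s, 1) - θ (0, 1))
      ((hθc.comp (by fun_prop : Continuous fun s : ℝ => (s, (1 : ℝ)))).sub continuous_const)
      (by simp) (by
        intro s _
        have h8 : 0 ≤ Real.cos (θ (s, 1)) := hcn _ (by
          simp only [hpr1]; have := hγ0 (pr s); linarith)
        rw [Real.sin_sub, c01, s01]
        linarith)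
    have h9 : Real.cos (θ (1, 1) - θ (0, 1)) = 1 := by
      rw [Real.cos_sub, c01, s01, s11]; ring
    have h10 := (Real.cos_eq_one_iff_of_lt_of_lt (by linarith [h.1]) (by linarith [h.2])).1 h9
    linarith
  have C : θ (1, 0) - θ (0, 0) = Real.pi := by
    have h := phase_nonneg (φ := fun s => θ (s, 0) - θ (0, 0))
      ((hθc.comp (by fun_prop : Continuous fun s : ℝ => (s, (0 : ℝ)))).sub continuous_const)
      (by simp) (by
        intro s _
        have h8 : 0 ≤ Real.cos (θ (s, 0)) := hcn _ (by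
          simp only [hpr0]; have := hγ0 (pr s); linarith)
        rw [Real.sin_sub, c00, s00]
        linarith)
    have h9 : Real.cos (θ (1, 0) - θ (0, 0)) = Real.cos Real.pi := by
      rw [Real.cos_sub, c00, s00, s10, Real.cos_pi]; ring
    exact Real.injOn_cos ⟨h.1, h.2⟩ ⟨hpi.le, le_rfl⟩ h9
  have D : θ (1, 1) - θ (1, 0) = Real.pi := by
    have h := phase_nonneg (φ := fun t => θ (1, t) - θ (1, 0))
      ((hθc.comp (by fun_prop : Continuous fun t : ℝ => ((1 : ℝ), t))).sub continuous_const)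
      (by simp) (by
        intro t _
        have h8 : Real.cos (θ (1, t)) ≤ 0 := hcp _ (by
          simp only [hpr1]; have := hη0 (pr t); linarith)
        rw [Real.sin_sub, c10, s10]
        linarith)
    have h9 : Real.cos (θ (1, 1) - θ (1, 0)) = Real.cos Real.pi := by
      rw [Real.cos_sub, c10, s10, s11, Real.cos_pi]; ring
    exact Real.injOn_cos ⟨h.1, h.2⟩ ⟨hpi.le, le_rfl⟩ h9
  linarith

private theorem fn_ext {δ : ℝ} {z w : ℝ × ℝ} (h1 : fn δ z = fn δ w) (h2 : z.2 = w.2) : z = w := by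
  unfold fn at h1
  rw [h2] at h1
  exact Prod.ext (by linarith) h2

/-- The crossing lemma in the half plane `{c ≤ z.1 + δ z.2}`. -/
theorem joined_meet {δ c : ℝ} {K L : Set (ℝ × ℝ)} (hK : ∀ z ∈ K, c ≤ fn δ z) (hL : ∀ z ∈ L, c ≤ fn δ z)
    {a b q u : ℝ × ℝ} (ha : fn δ a = c) (hb : fn δ b = c) (hq : fn δ q = c) (hu : fn δ u = c)
    (hab : JoinedIn K a b) (hqu : JoinedIn L q u) (h5 : a.2 < q.2) (h6 : q.2 < b.2) (h7 : b.2 < u.2) :
    (K ∩ L).Nonempty := by
  obtain ⟨γ, hγ⟩ := hab
  obtain ⟨η, hη⟩ := hqu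
  have hm := paths_meet (γ := fun t => (fn δ (γ t) - c, (γ t).2))
    (η := fun t => (fn δ (η t) - c, (η t).2))
    (by unfold fn; fun_prop) (by unfold fn; fun_prop)
    (fun t => by have := hK _ (hγ t); simpa using this)
    (fun t => by have := hL _ (hη t); simpa using this)
    (by simp [ha]) (by simp [hb]) (by simp [hq]) (by simp [hu])
    (by simpa using h5) (by simpa using h6) (by simpa using h7)
  obtain ⟨s, t, hst⟩ := hm
  rw [Prod.mk.injEq] at hst
  have e : γ s = η t := fn_ext (δ := δ) (by linarith [hst.1]) hst.2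
  exact ⟨γ s, hγ s, by rw [e]; exact hη t⟩

/-- Disjoint joined sets do not interleave. -/
theorem btw_iff_of_disjoint {δ c : ℝ} {K L : Set (ℝ × ℝ)} (hK : ∀ z ∈ K, c ≤ fn δ z)
    (hL : ∀ z ∈ L, c ≤ fn δ z) (hd : Disjoint K L)
    {a b q u : ℝ × ℝ} (ha : fn δ a = c) (hb : fn δ b = c) (hq : fn δ q = c) (hu : fn δ u = c)
    (hab : JoinedIn K a b) (hqu : JoinedIn L q u) : Btw a.2 b.2 q.2 ↔ Btw a.2 b.2 u.2 := by
  have hno : ¬ (K ∩ L).Nonempty := by
    rw [Set.not_nonempty_iff_eq_empty]; exact hd.inter_eq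
  have hno' : ¬ (L ∩ K).Nonempty := by rw [Set.inter_comm]; exact hno
  have aK := hab.source_mem
  have bK := hab.target_mem
  have qL := hqu.source_mem
  have uL := hqu.target_mem
  have hba := hab.symm
  have huq := hqu.symm
  have n1 : a.2 ≠ q.2 := fun h => hno ⟨a, aK, by rw [fn_ext (ha.trans hq.symm) h]; exact qL⟩
  have n2 : a.2 ≠ u.2 := fun h => hno ⟨a, aK, by rw [fn_ext (ha.trans hu.symm) h]; exact uL⟩
  have n3 : b.2 ≠ q.2 := fun h => hno ⟨b, bK, by rw [fn_ext (hb.trans hq.symm) h]; exact qL⟩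
  have n4 : b.2 ≠ u.2 := fun h => hno ⟨b, bK, by rw [fn_ext (hb.trans hu.symm) h]; exact uL⟩
  have k1 : a.2 < q.2 → q.2 < b.2 → b.2 < u.2 → False := fun x y z =>
    hno (joined_meet hK hL ha hb hq hu hab hqu x y z)
  have k2 : a.2 < u.2 → u.2 < b.2 → b.2 < q.2 → False := fun x y z =>
    hno (joined_meet hK hL ha hb hu hq hab huq x y z)
  have k3 : b.2 < q.2 → q.2 < a.2 → a.2 < u.2 → False := fun x y z =>
    hno (joined_meet hK hL hb ha hq hu hba hqu x y z)
  have k4 : b.2 < u.2 → u.2 < a.2 → a.2 < q.2 → False := fun x y z =>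
    hno (joined_meet hK hL hb ha hu hq hba huq x y z)
  have k5 : q.2 < a.2 → a.2 < u.2 → u.2 < b.2 → False := fun x y z =>
    hno' (joined_meet hL hK hq hu ha hb hqu hab x y z)
  have k6 : q.2 < b.2 → b.2 < u.2 → u.2 < a.2 → False := fun x y z =>
    hno' (joined_meet hL hK hq hu hb ha hqu hba x y z)
  have k7 : u.2 < a.2 → a.2 < q.2 → q.2 < b.2 → False := fun x y z =>
    hno' (joined_meet hL hK hu hq ha hb huq hab x y z)
  have k8 : u.2 < b.2 → b.2 < q.2 → q.2 < a.2 → False := fun x y z =>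
    hno' (joined_meet hL hK hu hq hb ha huq hba x y z)
  unfold Btw
  constructor
  · rintro (⟨x, y⟩ | ⟨x, y⟩)
    · rcases lt_or_gt_of_ne n2 with z | z
      · rcases lt_or_gt_of_ne n4 with w | w
        · exact (k1 x y w).elim
        · exact Or.inl ⟨z, w⟩
      · exact (k7 z x y).elim
    · rcases lt_or_gt_of_ne n2 with z | z
      · exact (k3 x y z).elim
      · rcases lt_or_gt_of_ne n4 with w | w
        · exact Or.inr ⟨w, z⟩
        · exact (k8 w x y).elim
  · rintro (⟨x, y⟩ | ⟨x, y⟩)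
    · rcases lt_or_gt_of_ne n1 with z | z
      · rcases lt_or_gt_of_ne n3 with w | w
        · exact (k2 x y w).elim
        · exact Or.inl ⟨z, w⟩
      · exact (k5 z x y).elim
    · rcases lt_or_gt_of_ne n1 with z | z
      · exact (k4 x y z).elim
      · rcases lt_or_gt_of_ne n3 with w | w
        · exact Or.inr ⟨w, z⟩
        · exact (k6 w x y).elim

end Pool.Agent.MP_245544_coT
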