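import Pool.Agent.Lib.MP_245544_coT.Defs

namespace Pool.Agent.MP_245544_coT

private theorem btw_comm {a b x : ℝ} : Btw a b x ↔ Btw b a x := by
  unfold Btw
  exact or_comm

private theorem btw_of_lt {a b x : ℝ} (h : a < b) : Btw a b x ↔ (a < x ∧ x < b) := by
  unfold Btw
  constructor
  · rintro (h1 | ⟨h1, h2⟩)
    · exact h1
    · exact absurd (h1.trans h2) (not_lt.mpr h.le)
  · exact Or.inl

/-- Among four distinct points of the circle, `c` is opposite to exactly one of the other three. -/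
theorem exists_opp {x y z c : ℝ} (hxy : x ≠ y) (hxz : x ≠ z) (hyz : y ≠ z) (hx : x ≠ c) (hy : y ≠ c)
    (hz : z ≠ c) :
    (¬ (Btw x y c ↔ Btw x y z)) ∨ (¬ (Btw x z c ↔ Btw x z y)) ∨ (¬ (Btw y z c ↔ Btw y z x)) := by
  unfold Btw
  grind

private theorem nested_aux {a b a' b' m' w : ℝ} (hab : a < b) (hab' : a' < b')
    (ham' : a' ≠ m') (hbm' : b' ≠ m')
    (ha : a = a' ∨ a = b' ∨ ¬ (Btw a' b' a ↔ Btw a' b' m'))
    (hb : b = a' ∨ b = b' ∨ ¬ (Btw a' b' b ↔ Btw a' b' m'))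
    (hwa' : w ≠ a') (hwb' : w ≠ b') (hw : Btw a' b' w ↔ Btw a' b' m') :
    m' ≠ a ∧ m' ≠ b ∧ w ≠ a ∧ w ≠ b ∧ (Btw a b w ↔ Btw a b m') := by
  rw [btw_of_lt hab', btw_of_lt hab'] at ha hb hw
  rw [btw_of_lt hab, btw_of_lt hab]
  grind (splits := 30)

private theorem nested_aux2 {a b a' b' m' w : ℝ} (hab : a ≠ b) (hab' : a' ≠ b')
    (ham' : a' ≠ m') (hbm' : b' ≠ m')
    (ha : a = a' ∨ a = b' ∨ ¬ (Btw a' b' a ↔ Btw a' b' m'))
    (hb : b = a' ∨ b = b' ∨ ¬ (Btw a' b' b ↔ Btw a' b' m'))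
    (hwa' : w ≠ a') (hwb' : w ≠ b') (hw : Btw a' b' w ↔ Btw a' b' m') :
    m' ≠ a ∧ m' ≠ b ∧ w ≠ a ∧ w ≠ b ∧ (Btw a b w ↔ Btw a b m') := by
  rcases lt_or_gt_of_ne hab with h | h
  · rcases lt_or_gt_of_ne hab' with h' | h'
    · exact nested_aux h h' ham' hbm' ha hb hwa' hwb' hw
    · rw [btw_comm (a := a') (b := b'), btw_comm (a := a') (b := b')] at ha hb hw
      exact nested_aux h h' hbm' ham' (or_left_comm.mp ha) (or_left_comm.mp hb) hwb' hwa' hw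
  · rw [btw_comm (a := a) (b := b), btw_comm (a := a) (b := b)]
    rcases lt_or_gt_of_ne hab' with h' | h'
    · obtain ⟨h1, h2, h3, h4, h5⟩ := nested_aux h h' ham' hbm' hb ha hwa' hwb' hw
      exact ⟨h2, h1, h4, h3, h5⟩
    · rw [btw_comm (a := a') (b := b'), btw_comm (a := a') (b := b')] at ha hb hw
      obtain ⟨h1, h2, h3, h4, h5⟩ :=
        nested_aux h h' hbm' ham' (or_left_comm.mp hb) (or_left_comm.mp ha) hwb' hwa' hw
      exact ⟨h2, h1, h4, h3, h5⟩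

/-- The nested arcs: `A'` is contained in `A`. (`A` = points on the same side of `{a,b}` as `m`;
`A'` = points on the same side of `{a',b'}` as `m'`.) -/
theorem nested {a b m a' b' m' w : ℝ} (hab : a ≠ b) (ham : a ≠ m) (hbm : b ≠ m)
    (hab' : a' ≠ b') (ham' : a' ≠ m') (hbm' : b' ≠ m') (ha'm : a' ≠ m) (hb'm : b' ≠ m) (hm'm : m' ≠ m)
    (h1 : a' ≠ a → a' ≠ b → (Btw a b m ↔ Btw a b a'))
    (h2 : b' ≠ a → b' ≠ b → (Btw a b m ↔ Btw a b b'))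
    (h3 : m' ≠ a → m' ≠ b → (Btw a b m ↔ Btw a b m'))
    (h4 : a ≠ a' → a ≠ b' → (Btw a' b' m ↔ Btw a' b' a))
    (h5 : b ≠ a' → b ≠ b' → (Btw a' b' m ↔ Btw a' b' b))
    (h6 : ¬ (Btw a' b' m ↔ Btw a' b' m'))
    (hwa' : w ≠ a') (hwb' : w ≠ b') (hw : Btw a' b' w ↔ Btw a' b' m') :
    w ≠ a ∧ w ≠ b ∧ (Btw a b w ↔ Btw a b m) := by
  have ha : a = a' ∨ a = b' ∨ ¬ (Btw a' b' a ↔ Btw a' b' m') := by
    by_cases e1 : a = a'
    · exact Or.inl e1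
    by_cases e2 : a = b'
    · exact Or.inr (Or.inl e2)
    · exact Or.inr (Or.inr fun e3 => h6 ((h4 e1 e2).trans e3))
  have hb : b = a' ∨ b = b' ∨ ¬ (Btw a' b' b ↔ Btw a' b' m') := by
    by_cases e1 : b = a'
    · exact Or.inl e1
    by_cases e2 : b = b'
    · exact Or.inr (Or.inl e2)
    · exact Or.inr (Or.inr fun e3 => h6 ((h5 e1 e2).trans e3))
  obtain ⟨q1, q2, q3, q4, q5⟩ := nested_aux2 hab hab' ham' hbm' ha hb hwa' hwb' hw
  exact ⟨q3, q4, q5.trans (h3 q1 q2).symm⟩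

end Pool.Agent.MP_245544_coT
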