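import Pool.Agent.Lib.MP_245544_coT.Defs

namespace Pool.Agent.MP_245544_coT

open Set

private theorem continuous_fn (δ : ℝ) : Continuous (fn δ) := by
  unfold fn
  fun_prop

private theorem joinedIn_Iic {γ : unitInterval → ℝ × ℝ} (hγ : Continuous γ) (τ : unitInterval) :
    JoinedIn (γ '' Set.Iic τ) (γ 0) (γ τ) := by
  refine ⟨⟨⟨fun t => γ (t * τ), ?_⟩, ?_, ?_⟩, ?_⟩
  · exact hγ.comp (continuous_id.mul continuous_const)
  · change γ (0 * τ) = γ 0
    rw [zero_mul]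
  · change γ (1 * τ) = γ τ
    rw [one_mul]
  · intro t
    exact ⟨t * τ, unitInterval.mul_le_right, rfl⟩

/-- The part of an arc from its initial point to its first point in the half plane `{fn δ ≤ c}`. -/
theorem exists_ray {δ c : ℝ} {γ : unitInterval → ℝ × ℝ} (hγ : Continuous γ)
    (hinj : Function.Injective γ) (h0 : c < fn δ (γ 0)) (h1 : fn δ (γ 1) ≠ c)
    (hx : ∃ z ∈ range γ, fn δ z ≤ c) :
    ∃ (r : Set (ℝ × ℝ)) (e : ℝ × ℝ), r ⊆ range γ ∧ (∀ z ∈ r, c ≤ fn δ z) ∧ fn δ e = c ∧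
      JoinedIn r (γ 0) e ∧ γ 1 ∉ r := by
  have hf : Continuous fun t => fn δ (γ t) := (continuous_fn δ).comp hγ
  have hcl : IsClosed {t : unitInterval | fn δ (γ t) ≤ c} := isClosed_le hf continuous_const
  have hne : {t : unitInterval | fn δ (γ t) ≤ c}.Nonempty := by
    obtain ⟨z, ⟨t, rfl⟩, ht⟩ := hx
    exact ⟨t, ht⟩
  obtain ⟨τ, hτ⟩ := hcl.isCompact.exists_isLeast hne
  have hlt : ∀ t, t < τ → c < fn δ (γ t) := by
    intro t ht
    by_contra hcon
    exact absurd (hτ.2 (not_lt.mp hcon)) (not_le.mpr ht)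
  have h0τ : (0 : unitInterval) < τ := by
    rcases lt_or_ge (0 : unitInterval) τ with h | h
    · exact h
    · exfalso
      have h' : τ = 0 := le_antisymm h (unitInterval.nonneg')
      have := hτ.1
      rw [h'] at this
      exact absurd h0 (not_lt.mpr this)
  have hge : c ≤ fn δ (γ τ) := by
    have hcl2 : IsClosed {t : unitInterval | c ≤ fn δ (γ t)} := isClosed_le continuous_const hf
    have hsub : closure (Iio τ) ⊆ {t : unitInterval | c ≤ fn δ (γ t)} :=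
      closure_minimal (fun t ht => (hlt t ht).le) hcl2
    apply hsub
    have hni : (Iio τ).Nonempty := ⟨(0 : unitInterval), h0τ⟩
    rw [closure_Iio' hni]
    exact Set.mem_Iic.mpr le_rfl
  have heq : fn δ (γ τ) = c := le_antisymm hτ.1 hge
  refine ⟨γ '' Set.Iic τ, γ τ, image_subset_range _ _, ?_, heq, joinedIn_Iic hγ τ, ?_⟩
  · rintro z ⟨t, ht, rfl⟩
    rcases lt_or_eq_of_le (Set.mem_Iic.mp ht) with h | h
    · exact (hlt t h).le
    · rw [h]
      exact hge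
  · rintro ⟨t, ht, hteq⟩
    have h2 : t = 1 := hinj hteq
    have h3 : τ = 1 := by
      rw [h2] at ht
      exact le_antisymm unitInterval.le_one' (Set.mem_Iic.mp ht)
    rw [h3] at heq
    exact h1 heq

/-- An arc is path connected: joined in its range. -/
theorem joinedIn_range {γ : unitInterval → ℝ × ℝ} (hγ : Continuous γ) :
    JoinedIn (range γ) (γ 0) (γ 1) :=
  ⟨⟨⟨γ, hγ⟩, rfl, rfl⟩, fun t => ⟨t, rfl⟩⟩

variable {V : Type} {G : SimpleGraph V}

theorem Drawing.joinedIn_arc (D : Drawing G) {u v : V} (h : G.Adj u v) :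
    JoinedIn (D.arc s(u, v)) (D.pt u) (D.pt v) := by
  obtain ⟨γ, hγ, -, h0, h1, hr⟩ := D.isArc u v h
  rw [← hr, ← h0, ← h1]
  exact joinedIn_range hγ

/-- The ray of a vertex `q` along an edge `qz` that meets the half plane `{fn δ ≤ c}`. -/
theorem Drawing.exists_ray (D : Drawing G) {δ c : ℝ} {q z : V} (h : G.Adj q z)
    (h0 : c < fn δ (D.pt q)) (h1 : fn δ (D.pt z) ≠ c) (hx : ∃ x ∈ D.arc s(q, z), fn δ x ≤ c) :
    ∃ (r : Set (ℝ × ℝ)) (e : ℝ × ℝ), r ⊆ D.arc s(q, z) ∧ (∀ x ∈ r, c ≤ fn δ x) ∧ fn δ e = c ∧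
      JoinedIn r (D.pt q) e ∧ D.pt z ∉ r := by
  obtain ⟨γ, hγ, hinj, h0', h1', hr⟩ := D.isArc q z h
  rw [← h0'] at h0
  rw [← h1'] at h1
  rw [← hr] at hx
  rw [← hr, ← h0', ← h1']
  exact Pool.Agent.MP_245544_coT.exists_ray hγ hinj h0 h1 hx

end Pool.Agent.MP_245544_coT
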