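import Mathlib

/-! MP_245544_co: drawings of graphs in the plane whose crossing edges are far apart. -/

namespace Pool.Agent.MP_245544_coT

/-- A drawing of the graph `G` in the plane: vertices go to distinct points, and every edge `uv` to a
Jordan arc (injective continuous image of `[0,1]`) joining the points of `u` and `v` that passes
through no other vertex point. (`arc e` is only meaningful when `e` is an edge.) -/
structure Drawing {V : Type} (G : SimpleGraph V) where
  pt : V → ℝ × ℝ
  pt_injective : Function.Injective pt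
  arc : Sym2 V → Set (ℝ × ℝ)
  isArc : ∀ u v, G.Adj u v → ∃ γ : unitInterval → ℝ × ℝ, Continuous γ ∧ Function.Injective γ ∧
    γ 0 = pt u ∧ γ 1 = pt v ∧ Set.range γ = arc s(u, v)
  avoid : ∀ e ∈ G.edgeSet, ∀ w, pt w ∈ arc e → w ∈ e

variable {V : Type} {G : SimpleGraph V}

/-- Two (different) edges cross if their arcs share a point which is not the point of a common end vertex. -/
def Drawing.Cross (D : Drawing G) (e e' : Sym2 V) : Prop :=
  e ≠ e' ∧ ∃ x ∈ D.arc e ∩ D.arc e', ∀ w, w ∈ e → w ∈ e' → x ≠ D.pt w

/-- The distance of the edges `e` and `e'` is at least `k`: every path of `G` whose first edge is `e`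
and whose last edge is `e'` has at least `k` edges. -/
def EdgeDistGE (G : SimpleGraph V) (k : ℕ) (e e' : Sym2 V) : Prop :=
  ∀ (u v : V) (p : G.Walk u v), p.IsPath → p.edges.head? = some e → p.edges.getLast? = some e' →
    k ≤ p.length

/-- Any two crossing edges are at distance at least `k`. -/
def Drawing.CrossingsFar (D : Drawing G) (k : ℕ) : Prop :=
  ∀ e ∈ G.edgeSet, ∀ e' ∈ G.edgeSet, D.Cross e e' → EdgeDistGE G k e e'

/-- The largest number of edges of a graph with `n` vertices that has a drawing in which any two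
crossing edges are at distance at least `k`. -/
noncomputable def maxEdges (k n : ℕ) : ℕ :=
  sSup {m : ℕ | ∃ (G : SimpleGraph (Fin n)) (D : Drawing G), D.CrossingsFar k ∧ G.edgeSet.ncard = m}

/-! ### Internal definitions (not used in the statement) -/

/-- Edges with end vertices at walk distance at most `m` do not cross. -/
def Drawing.NearPlane (D : Drawing G) (m : ℕ) : Prop :=
  ∀ e ∈ G.edgeSet, ∀ e' ∈ G.edgeSet,
    (∃ x ∈ e, ∃ x' ∈ e', ∃ w : G.Walk x x', w.length ≤ m) → ¬ D.Cross e e'

/-- `x` is strictly between `a` and `b`. -/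
def Btw (a b x : ℝ) : Prop := (a < x ∧ x < b) ∨ (b < x ∧ x < a)

/-- The functional `z.1 + δ z.2`. -/
def fn (δ : ℝ) (z : ℝ × ℝ) : ℝ := z.1 + δ * z.2

/-- The edges of `G` inside the vertex set `S`. -/
noncomputable def edgesIn (G : SimpleGraph V) [Fintype V] (S : Finset V) : Finset (Sym2 V) := by
  classical exact Finset.univ.filter (fun e => e ∈ G.edgeSet ∧ ∀ v ∈ e, v ∈ S)

theorem mem_edgesIn [Fintype V] {S : Finset V} {e : Sym2 V} :
    e ∈ edgesIn G S ↔ e ∈ G.edgeSet ∧ ∀ v ∈ e, v ∈ S := by
  classical simp [edgesIn]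

end Pool.Agent.MP_245544_coT
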