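import Pool.Agent.Lib.MP_245544_coT.Defs

namespace Pool.Agent.MP_245544_coT

variable {V : Type} {G : SimpleGraph V}

/-- Two different edges with end vertices joined by a walk of length `m` are the first and the last
edge of a path with at most `m + 2` edges. -/
theorem exists_edge_path [Finite V] {e e' : Sym2 V} (he : e ∈ G.edgeSet) (he' : e' ∈ G.edgeSet)
    (hne : e ≠ e') {m : ℕ} (h : ∃ x ∈ e, ∃ x' ∈ e', ∃ w : G.Walk x x', w.length ≤ m) :
    ∃ (u v : V) (p : G.Walk u v), p.IsPath ∧ p.edges.head? = some e ∧ p.edges.getLast? = some e' ∧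
      p.length ≤ m + 2 := by
  classical
  have hex : ∃ l : ℕ, ∃ x ∈ e, ∃ x' ∈ e', ∃ w : G.Walk x x', w.length ≤ l := ⟨m, h⟩
  obtain ⟨x, hx, x', hx', w0, hw0⟩ := Nat.find_spec hex
  set l := Nat.find hex with hl
  have hlm : l ≤ m := Nat.find_min' hex h
  have hmin : ∀ y ∈ e, ∀ y' ∈ e', ∀ w : G.Walk y y', l ≤ w.length := by
    intro y hy y' hy' w
    exact Nat.find_min' hex ⟨y, hy, y', hy', w, le_rfl⟩
  have hlen : w0.bypass.length ≤ l := (w0.length_bypass_le_length).trans hw0
  have hpath : w0.bypass.IsPath := w0.bypass_isPath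
  set w := w0.bypass with hw
  obtain ⟨y, rfl⟩ := Sym2.mem_iff_exists.1 hx
  obtain ⟨y', rfl⟩ := Sym2.mem_iff_exists.1 hx'
  have hxy : G.Adj x y := he
  have hxy' : G.Adj x' y' := he'
  have h1 : y ∉ w.support := by
    intro hy
    have h2 := hmin y (Sym2.mem_mk_right x y) x' (Sym2.mem_mk_left x' y') (w.dropUntil y hy)
    have h3 : (w.takeUntil y hy).length + (w.dropUntil y hy).length = w.length := by
      rw [← SimpleGraph.Walk.length_append, SimpleGraph.Walk.take_spec]
    have h4 : (w.takeUntil y hy).length ≠ 0 := by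
      intro h5
      exact hxy.ne (SimpleGraph.Walk.eq_of_length_eq_zero h5)
    omega
  have h2 : y' ∉ w.support := by
    intro hy
    have h2 := hmin x (Sym2.mem_mk_left x y) y' (Sym2.mem_mk_right x' y') (w.takeUntil y' hy)
    have h3 : (w.takeUntil y' hy).length + (w.dropUntil y' hy).length = w.length := by
      rw [← SimpleGraph.Walk.length_append, SimpleGraph.Walk.take_spec]
    have h4 : (w.dropUntil y' hy).length ≠ 0 := by
      intro h5
      exact hxy'.ne (SimpleGraph.Walk.eq_of_length_eq_zero h5).symm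
    omega
  have h3 : y ≠ y' := by
    rintro rfl
    have h4 := hmin y (Sym2.mem_mk_right x y) y (Sym2.mem_mk_right x' y) SimpleGraph.Walk.nil
    rw [SimpleGraph.Walk.length_nil] at h4
    have h5 : w.length = 0 := by omega
    have h6 := SimpleGraph.Walk.eq_of_length_eq_zero h5
    exact hne (by rw [h6])
  refine ⟨y, y', SimpleGraph.Walk.cons hxy.symm (w.concat hxy'), ?_, ?_, ?_, ?_⟩
  · rw [SimpleGraph.Walk.cons_isPath_iff]
    refine ⟨hpath.concat h2 hxy', ?_⟩
    rw [SimpleGraph.Walk.support_concat]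
    simp only [List.mem_append, List.mem_singleton, not_or]
    exact ⟨h1, h3⟩
  · rw [SimpleGraph.Walk.edges_cons, List.head?_cons, Sym2.eq_swap]
  · rw [SimpleGraph.Walk.edges_cons, SimpleGraph.Walk.edges_concat, List.concat_eq_append,
      ← List.cons_append, List.getLast?_append, List.getLast?_singleton]
    rfl
  · rw [SimpleGraph.Walk.length_cons, SimpleGraph.Walk.length_concat]
    omega

theorem Drawing.CrossingsFar.nearPlane [Finite V] {D : Drawing G} {k m : ℕ} (h : D.CrossingsFar k)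
    (hm : m + 2 < k) : D.NearPlane m := by
  intro e he e' he' hw hc
  obtain ⟨u, v, p, hp, h1, h2, h3⟩ := exists_edge_path he he' hc.1 hw
  have := h e he e' he' hc u v p hp h1 h2
  omega

/-- Restriction of a drawing to a subgraph. -/
def Drawing.restrict (D : Drawing G) {G' : SimpleGraph V} (h : G' ≤ G) : Drawing G' where
  pt := D.pt
  pt_injective := D.pt_injective
  arc := D.arc
  isArc u v huv := D.isArc u v (h huv)
  avoid e he := D.avoid e (SimpleGraph.edgeSet_mono h he)

theorem Drawing.NearPlane.restrict {D : Drawing G} {m : ℕ} (hD : D.NearPlane m) {G' : SimpleGraph V}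
    (h : G' ≤ G) : (D.restrict h).NearPlane m := by
  rintro e he e' he' ⟨x, hx, x', hx', w, hw⟩ hc
  refine hD e (SimpleGraph.edgeSet_mono h he) e' (SimpleGraph.edgeSet_mono h he')
    ⟨x, hx, x', hx', w.mapLe h, ?_⟩ hc
  rw [SimpleGraph.Walk.mapLe, SimpleGraph.Walk.length_map]
  exact hw

/-- Noncrossing edges only share common end vertices. -/
theorem Drawing.NearPlane.inter {D : Drawing G} {m : ℕ} (hD : D.NearPlane m) {e e' : Sym2 V}
    (he : e ∈ G.edgeSet) (he' : e' ∈ G.edgeSet) (hne : e ≠ e')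
    (h : ∃ x ∈ e, ∃ x' ∈ e', ∃ w : G.Walk x x', w.length ≤ m) {z : ℝ × ℝ} (hz : z ∈ D.arc e)
    (hz' : z ∈ D.arc e') : ∃ w, w ∈ e ∧ w ∈ e' ∧ z = D.pt w := by
  by_contra hcon
  push Not at hcon
  exact hD e he e' he' h ⟨hne, z, ⟨hz, hz'⟩, fun w h1 h2 => hcon w h1 h2⟩

end Pool.Agent.MP_245544_coT
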