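import Pool.Agent.Lib.MP_245544_coT.LemC
import Pool.Agent.Lib.MP_245544_coT.CrossL
import Pool.Agent.Lib.MP_245544_coT.Ray
import Pool.Agent.Lib.MP_245544_coT.Near

namespace Pool.Agent.MP_245544_coT

variable {V : Type} {G : SimpleGraph V}

/-- `A` is a part of an edge `xz` which contains the point of `z` only if `z = w`. -/
private def Pc (D : Drawing G) (x w : V) (A : Set (ℝ × ℝ)) : Prop :=
  ∃ z, G.Adj x z ∧ A ⊆ D.arc s(x, z) ∧ (D.pt z ∈ A → z = w)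

private theorem pc_disj (D : Drawing G) (hD : D.NearPlane 4) (col : V → Bool)
    (hcol : ∀ u v, G.Adj u v → col u ≠ col v) {x y w w' : V} {A B : Set (ℝ × ℝ)}
    (hA : Pc D x w A) (hB : Pc D y w' B) (hxy : x ≠ y) (hc : col x = col y) (hw : w ≠ w')
    (hwk : ∃ p : G.Walk x y, p.length ≤ 4) : Disjoint A B := by
  obtain ⟨z, hz, hAz, hzw⟩ := hA
  obtain ⟨z', hz', hBz, hzw'⟩ := hB
  rw [Set.disjoint_left]
  intro t htA htB
  have hne : s(x, z) ≠ s(y, z') := by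
    intro h
    rw [Sym2.eq_iff] at h
    rcases h with ⟨h, -⟩ | ⟨h, -⟩
    · exact hxy h
    · exact hcol _ _ hz' (by rw [← hc, h])
  have hn := hD s(x, z) hz s(y, z') hz'
    ⟨x, Sym2.mem_mk_left _ _, y, Sym2.mem_mk_left _ _, hwk⟩
  apply hn
  refine ⟨hne, t, ⟨hAz htA, hBz htB⟩, ?_⟩
  intro v hv hv' htv
  rw [Sym2.mem_iff] at hv hv'
  rcases hv with rfl | rfl
  · rcases hv' with rfl | rfl
    · exact hxy rfl
    · exact hcol _ _ hz' hc.symm
  · rcases hv' with rfl | rfl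
    · exact hcol _ _ hz hc
    · rw [htv] at htA htB
      exact hw ((hzw htA).symm.trans (hzw' htB))

private theorem pt_mem_arc (D : Drawing G) {u v : V} (h : G.Adj u v) :
    D.pt v ∈ D.arc s(u, v) :=
  (D.joinedIn_arc h).target_mem

/-- Section 1 and 2: edges between `P` and `Q` in the open half plane, every vertex of `Q` having an
edge that meets the closed half plane `{fn δ ≤ c}`. -/
theorem local_bound [DecidableEq V] (D : Drawing G) (hD : D.NearPlane 4) (col : V → Bool)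
    (hcol : ∀ u v, G.Adj u v → col u ≠ col v) {δ c : ℝ} (hc : ∀ v, fn δ (D.pt v) ≠ c) (b : Bool)
    (H : Finset (V × V)) (hH : ∀ x ∈ H, G.Adj x.1 x.2 ∧ col x.2 = b ∧ ∀ z ∈ D.arc s(x.1, x.2), c < fn δ z)
    (hX : ∀ x ∈ H, ∃ z, G.Adj x.2 z ∧ ∃ y ∈ D.arc s(x.2, z), fn δ y ≤ c) :
    H.card ≤ 3 * (H.image Prod.fst).card + (H.image Prod.snd).card := by
  classical
  have hray : ∀ q : V, ∃ (r : Set (ℝ × ℝ)) (e : ℝ × ℝ), (∃ p, (p, q) ∈ H) →
      (∀ w, Pc D q w r) ∧ (∀ z ∈ r, c ≤ fn δ z) ∧ fn δ e = c ∧ JoinedIn r (D.pt q) e := by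
    intro q
    by_cases hq : ∃ p, (p, q) ∈ H
    · obtain ⟨p, hp⟩ := hq
      obtain ⟨z, hz, hy⟩ := hX _ hp
      obtain ⟨h1, -, h3⟩ := hH _ hp
      obtain ⟨r, e, h4, h5, h6, h7, h8⟩ := D.exists_ray (δ := δ) (c := c) hz
        (h3 _ (pt_mem_arc D h1)) (hc z) hy
      exact ⟨r, e, fun _ => ⟨fun w => ⟨z, hz, h4, fun h => (h8 h).elim⟩, h5, h6, h7⟩⟩
    · exact ⟨∅, 0, fun h => (hq h).elim⟩
  choose r e hre using hray
  -- the arms
  have hPr : ∀ p q, (p, q) ∈ H → ∀ w, Pc D q w (r q) := fun p q h => (hre q ⟨p, h⟩).1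
  have hPa : ∀ p q, (p, q) ∈ H → Pc D q p (D.arc s(q, p)) := fun p q h =>
    ⟨p, (hH _ h).1.symm, subset_rfl, fun _ => rfl⟩
  have hcl : ∀ p q, (p, q) ∈ H → col q = b := fun p q h => (hH _ h).2.1
  have hadj : ∀ p q, (p, q) ∈ H → G.Adj p q := fun p q h => (hH _ h).1
  have hjoin : ∀ p q, (p, q) ∈ H → JoinedIn (r q ∪ D.arc s(q, p)) (e q) (D.pt p) := by
    intro p q h
    exact ((hre q ⟨p, h⟩).2.2.2.symm.mono Set.subset_union_left).trans
      ((D.joinedIn_arc (hadj p q h).symm).mono Set.subset_union_right)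
  have hge : ∀ p q, (p, q) ∈ H → ∀ z ∈ r q ∪ D.arc s(q, p), c ≤ fn δ z := by
    intro p q h z hz
    rcases hz with hz | hz
    · exact (hre q ⟨p, h⟩).2.1 z hz
    · rw [Sym2.eq_swap] at hz
      exact ((hH _ h).2.2 z hz).le
  have harm : ∀ p p' x y, (p, x) ∈ H → (p', y) ∈ H → p ≠ p' → x ≠ y →
      (∃ w : G.Walk x y, w.length ≤ 4) →
      Disjoint (r x ∪ D.arc s(x, p)) (r y ∪ D.arc s(y, p')) := by
    intro p p' x y h1 h2 h3 h4 h5
    have hcc : col x = col y := (hcl _ _ h1).trans (hcl _ _ h2).symm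
    exact Set.disjoint_union_left.2 ⟨Set.disjoint_union_right.2
      ⟨pc_disj D hD col hcol (hPr _ _ h1 p) (hPr _ _ h2 p') h4 hcc h3 h5,
      pc_disj D hD col hcol (hPr _ _ h1 p) (hPa _ _ h2) h4 hcc h3 h5⟩,
      Set.disjoint_union_right.2
      ⟨pc_disj D hD col hcol (hPa _ _ h1) (hPr _ _ h2 p') h4 hcc h3 h5,
      pc_disj D hD col hcol (hPa _ _ h1) (hPa _ _ h2) h4 hcc h3 h5⟩⟩
  have hne : ∀ p p' x y, (p, x) ∈ H → (p', y) ∈ H → x ≠ y →
      (∃ w : G.Walk x y, w.length ≤ 4) → (e x).2 ≠ (e y).2 := by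
    intro p p' x y h1 h2 h4 h5 h6
    have hcc : col x = col y := (hcl _ _ h1).trans (hcl _ _ h2).symm
    have hd : Disjoint (r x) (r y) :=
      pc_disj D hD col hcol (hPr _ _ h1 p) (hPr _ _ h2 x) h4 hcc (hadj _ _ h1).ne h5
    have h7 : e x = e y := by
      have h8 := (hre x ⟨p, h1⟩).2.2.1
      have h9 := (hre y ⟨p', h2⟩).2.2.1
      unfold fn at h8 h9
      rw [h6] at h8
      refine Prod.ext ?_ h6
      linarith
    have h8 : e x ∈ r x := (hre x ⟨p, h1⟩).2.2.2.target_mem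
    have h9 : e y ∈ r y := (hre y ⟨p', h2⟩).2.2.2.target_mem
    rw [← h7] at h9
    exact Set.disjoint_left.1 hd h8 h9
  -- short walks
  have hw2 : ∀ p x y, (p, x) ∈ H → (p, y) ∈ H → ∃ w : G.Walk x y, w.length ≤ 4 := by
    intro p x y h1 h2
    exact ⟨.cons (hadj _ _ h1).symm (.cons (hadj _ _ h2) .nil), by simp⟩
  have hw4 : ∀ p p' m x y, (p, x) ∈ H → (p, m) ∈ H → (p', m) ∈ H → (p', y) ∈ H →
      ∃ w : G.Walk x y, w.length ≤ 4 := by
    intro p p' m x y h1 h2 h3 h4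
    exact ⟨.cons (hadj _ _ h1).symm (.cons (hadj _ _ h2) (.cons (hadj _ _ h3).symm
      (.cons (hadj _ _ h4) .nil))), by simp⟩
  refine lemmaC (e := fun q => (e q).2) ⟨?_, ?_, ?_⟩
  · intro p p' q hpp h1 h2 a b u h3 h4 h5 hab haq hbq huq hua hub
    have hK : Disjoint ((r a ∪ D.arc s(a, p)) ∪ (r b ∪ D.arc s(b, p)))
        ((r q ∪ D.arc s(q, p')) ∪ (r u ∪ D.arc s(u, p'))) :=
      Set.disjoint_union_left.2 ⟨Set.disjoint_union_right.2
        ⟨harm _ _ _ _ h3 h2 hpp haq (hw2 _ _ _ h3 h1),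
        harm _ _ _ _ h3 h5 hpp (Ne.symm hua) (hw4 _ _ _ _ _ h3 h1 h2 h5)⟩,
        Set.disjoint_union_right.2
        ⟨harm _ _ _ _ h4 h2 hpp hbq (hw2 _ _ _ h4 h1),
        harm _ _ _ _ h4 h5 hpp (Ne.symm hub) (hw4 _ _ _ _ _ h4 h1 h2 h5)⟩⟩
    refine btw_iff_of_disjoint (δ := δ) (c := c) ?_ ?_ hK (hre a ⟨p, h3⟩).2.2.1
      (hre b ⟨p, h4⟩).2.2.1 (hre q ⟨p, h1⟩).2.2.1 (hre u ⟨p', h5⟩).2.2.1 ?_ ?_
    · rintro z (hz | hz)
      · exact hge _ _ h3 z hz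
      · exact hge _ _ h4 z hz
    · rintro z (hz | hz)
      · exact hge _ _ h2 z hz
      · exact hge _ _ h5 z hz
    · exact ((hjoin _ _ h3).mono Set.subset_union_left).trans
        ((hjoin _ _ h4).symm.mono Set.subset_union_right)
    · exact ((hjoin _ _ h2).mono Set.subset_union_left).trans
        ((hjoin _ _ h5).symm.mono Set.subset_union_right)
  · intro p q q' h1 h2 h3
    exact hne _ _ _ _ h1 h2 h3 (hw2 _ _ _ h1 h2)
  · intro p p' m hp h1 h2 a u h3 h4 hau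
    exact hne _ _ _ _ h3 h4 hau (hw4 _ _ _ _ _ h3 h1 h2 h4)

end Pool.Agent.MP_245544_coT
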