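import Pool.Agent.Lib.MP_245544_coT.Touch
import Pool.Agent.Lib.MP_245544_coT.Tie

namespace Pool.Agent.MP_245544_coT

variable {V : Type} {G : SimpleGraph V}

private theorem exists_median {α β : Type*} [DecidableEq β] [LinearOrder α] (s : Finset β)
    (hs : s.Nonempty) (l : β → α) :
    ∃ q : α, 2 * (s.filter fun v => l v < q).card ≤ s.card ∧
      2 * (s.filter fun v => q < l v).card ≤ s.card := by
  classical
  set C : Finset β := s.filter fun x => 2 * (s.filter fun v => l v < l x).card ≤ s.card with hC
  have hCne : C.Nonempty := by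
    obtain ⟨x, hx, hmin⟩ := s.exists_min_image l hs
    refine ⟨x, Finset.mem_filter.2 ⟨hx, ?_⟩⟩
    have : (s.filter fun v => l v < l x) = ∅ := by
      rw [Finset.filter_eq_empty_iff]
      intro v hv
      exact not_lt.2 (hmin v hv)
    rw [this]
    simp
  obtain ⟨x, hx, hmax⟩ := C.exists_max_image l hCne
  refine ⟨l x, (Finset.mem_filter.1 hx).2, ?_⟩
  rcases (s.filter fun v => l x < l v).eq_empty_or_nonempty with h | h
  · rw [h]; simp
  · obtain ⟨y, hy, hymin⟩ := (s.filter fun v => l x < l v).exists_min_image l h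
    have hys := (Finset.mem_filter.1 hy).1
    have hxy := (Finset.mem_filter.1 hy).2
    have hyC : y ∉ C := fun hyC => absurd (hmax y hyC) (not_le.2 hxy)
    have h1 : ¬ 2 * (s.filter fun v => l v < l y).card ≤ s.card := fun h2 =>
      hyC (Finset.mem_filter.2 ⟨hys, h2⟩)
    have h3 : (s.filter fun v => l v < l y).card + (s.filter fun v => l x < l v).card ≤ s.card := by
      rw [← Finset.card_union_of_disjoint]
      · apply Finset.card_le_card
        intro v hv
        rcases Finset.mem_union.1 hv with hv | hv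
        · exact (Finset.mem_filter.1 hv).1
        · exact (Finset.mem_filter.1 hv).1
      · rw [Finset.disjoint_left]
        intro v hv hv'
        have h4 := hymin v hv'
        have h5 := (Finset.mem_filter.1 hv).2
        exact absurd h5 (not_lt.2 h4)
    omega

/-- One step of the recursion. -/
theorem step [Fintype V] [DecidableEq V] (D : Drawing G) (hD : D.NearPlane 4) (col : V → Bool)
    (hcol : ∀ u v, G.Adj u v → col u ≠ col v) (S : Finset V) :
    ∃ S₁ S₂ : Finset V, S₁ ⊆ S ∧ S₂ ⊆ S ∧ Disjoint S₁ S₂ ∧ 2 * S₁.card ≤ S.card ∧ 2 * S₂.card ≤ S.card ∧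
      (edgesIn G S).card ≤ (edgesIn G S₁).card + (edgesIn G S₂).card + 5 * S.card := by
  classical
  obtain ⟨key, hkey⟩ := D.exists_key
  set E := edgesIn G S with hE
  set S' := S.filter fun v => ∃ e ∈ E, v ∈ e with hS'
  have hpick : ∀ v : V, ∃ e : Sym2 V, (∃ e ∈ E, v ∈ e) → (e ∈ E ∧ v ∈ e ∧
      ∀ e' ∈ E, v ∈ e' → toLex (key e) ≤ toLex (key e')) := by
    intro v
    by_cases h : ∃ e ∈ E, v ∈ e
    · obtain ⟨e₀, he₀, hv₀⟩ := h
      obtain ⟨e, he, hmin⟩ := (E.filter fun e => v ∈ e).exists_min_image (fun e => toLex (key e))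
        ⟨e₀, Finset.mem_filter.2 ⟨he₀, hv₀⟩⟩
      exact ⟨e, fun _ => ⟨(Finset.mem_filter.1 he).1, (Finset.mem_filter.1 he).2,
        fun e' he' hv' => hmin e' (Finset.mem_filter.2 ⟨he', hv'⟩)⟩⟩
    · obtain ⟨e₀⟩ : Nonempty (Sym2 V) := ⟨s(v, v)⟩
      exact ⟨e₀, fun h' => absurd h' h⟩
  choose pick hp using hpick
  set lam : V → Lex (ℝ × ℝ) := fun v => toLex (key (pick v)) with hlam
  have hmemS' : ∀ e ∈ E, ∀ v ∈ e, v ∈ S' := fun e he v hv =>
    Finset.mem_filter.2 ⟨(mem_edgesIn.1 he).2 v hv, e, he, hv⟩
  have hle : ∀ e ∈ E, ∀ v ∈ e, lam v ≤ toLex (key e) := fun e he v hv =>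
    (hp v ⟨e, he, hv⟩).2.2 e he hv
  rcases S'.eq_empty_or_nonempty with hemp | hne
  · refine ⟨∅, ∅, by simp, by simp, by simp, by simp, by simp, ?_⟩
    have : E = ∅ := by
      rw [Finset.eq_empty_iff_forall_notMem]
      intro e he
      induction e using Sym2.ind with
      | _ u v =>
        have := hmemS' _ he u (Sym2.mem_mk_left u v)
        rw [hemp] at this
        exact absurd this (Finset.notMem_empty u)
    rw [this]
    simp
  · obtain ⟨q, hq1, hq2⟩ := exists_median S' hne lam
    have hS'S : S'.card ≤ S.card := Finset.card_le_card (Finset.filter_subset _ _)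
    refine ⟨S'.filter fun v => lam v < q, S'.filter fun v => q < lam v,
      (Finset.filter_subset _ _).trans (Finset.filter_subset _ _),
      (Finset.filter_subset _ _).trans (Finset.filter_subset _ _), ?_, hq1.trans hS'S,
      hq2.trans hS'S, ?_⟩
    · rw [Finset.disjoint_left]
      intro v hv hv'
      exact lt_asymm (Finset.mem_filter.1 hv).2 (Finset.mem_filter.1 hv').2
    · set E1 := E.filter fun e => toLex (key e) < q with hE1
      set E2 := E.filter fun e => toLex (key e) = q with hE2
      set E3 := E.filter fun e => q < toLex (key e) ∧ ∀ v ∈ e, q < lam v with hE3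
      set E4 := E.filter fun e => q < toLex (key e) ∧ ¬ ∀ v ∈ e, q < lam v with hE4
      have hcov : E ⊆ (E1 ∪ E3) ∪ (E2 ∪ E4) := by
        intro e he
        rcases lt_trichotomy (toLex (key e)) q with h | h | h
        · exact Finset.mem_union_left _ (Finset.mem_union_left _ (Finset.mem_filter.2 ⟨he, h⟩))
        · exact Finset.mem_union_right _ (Finset.mem_union_left _ (Finset.mem_filter.2 ⟨he, h⟩))
        · by_cases h' : ∀ v ∈ e, q < lam v
          · exact Finset.mem_union_left _
              (Finset.mem_union_right _ (Finset.mem_filter.2 ⟨he, h, h'⟩))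
          · exact Finset.mem_union_right _
              (Finset.mem_union_right _ (Finset.mem_filter.2 ⟨he, h, h'⟩))
      have c1 : E1.card ≤ (edgesIn G (S'.filter fun v => lam v < q)).card := by
        apply Finset.card_le_card
        intro e he
        obtain ⟨he, hlt⟩ := Finset.mem_filter.1 he
        exact mem_edgesIn.2 ⟨(mem_edgesIn.1 he).1, fun v hv =>
          Finset.mem_filter.2 ⟨hmemS' e he v hv, (hle e he v hv).trans_lt hlt⟩⟩
      have c3 : E3.card ≤ (edgesIn G (S'.filter fun v => q < lam v)).card := by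
        apply Finset.card_le_card
        intro e he
        obtain ⟨he, -, hlt⟩ := Finset.mem_filter.1 he
        exact mem_edgesIn.2 ⟨(mem_edgesIn.1 he).1, fun v hv =>
          Finset.mem_filter.2 ⟨hmemS' e he v hv, hlt v hv⟩⟩
      have c2 : E2.card ≤ S.card := by
        refine tie_bound D hD S E2 (Finset.filter_subset _ _) (ofLex q) ?_
        intro e he
        obtain ⟨he, heq⟩ := Finset.mem_filter.1 he
        rw [← heq]
        exact (hkey e (mem_edgesIn.1 he).1).1
      have c4 : E4.card ≤ 4 * S.card := by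
        refine touch_bound D hD col hcol hkey S (ofLex q) E4 (Finset.filter_subset _ _) ?_ ?_
        · intro e he
          exact (Finset.mem_filter.1 he).2.1
        · intro e he
          obtain ⟨he, -, h⟩ := Finset.mem_filter.1 he
          push Not at h
          obtain ⟨w, hw, hlw⟩ := h
          have h2 := hp w ⟨e, he, hw⟩
          exact ⟨w, hw, pick w, h2.1, h2.2.1, hlw⟩
      have h5 := Finset.card_le_card hcov
      have h6 := Finset.card_union_le (E1 ∪ E3) (E2 ∪ E4)
      have h7 := Finset.card_union_le E1 E3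
      have h8 := Finset.card_union_le E2 E4
      omega

/-- The bipartite bound. -/
theorem bip_bound [Fintype V] [DecidableEq V] (D : Drawing G) (hD : D.NearPlane 4) (col : V → Bool)
    (hcol : ∀ u v, G.Adj u v → col u ≠ col v) (S : Finset V) :
    (edgesIn G S).card ≤ 5 * S.card * Nat.log 2 S.card := by
  induction h : S.card using Nat.strong_induction_on generalizing S with
  | _ n ih =>
    rcases Nat.lt_or_ge n 2 with hn | hn
    · have : edgesIn G S = ∅ := by
        rw [Finset.eq_empty_iff_forall_notMem]
        intro e he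
        induction e using Sym2.ind with
        | _ u v =>
          obtain ⟨h1, h2⟩ := mem_edgesIn.1 he
          have huv : G.Adj u v := h1
          have h3 := h2 u (Sym2.mem_mk_left u v)
          have h4 := h2 v (Sym2.mem_mk_right u v)
          have h5 := Finset.card_le_one.1 (show S.card ≤ 1 by omega) u h3 v h4
          exact huv.ne h5
      rw [this]
      simp
    · obtain ⟨S₁, S₂, -, -, -, h1, h2, h3⟩ := step D hD col hcol S
      rw [h] at h1 h2 h3
      have i1 := ih S₁.card (by omega) S₁ rfl
      have i2 := ih S₂.card (by omega) S₂ rfl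
      have hL : Nat.log 2 n = Nat.log 2 (n / 2) + 1 := by
        rw [Nat.log_of_one_lt_of_le (by norm_num) hn]
      have l1 : Nat.log 2 S₁.card ≤ Nat.log 2 (n / 2) := Nat.log_mono_right (by omega)
      have l2 : Nat.log 2 S₂.card ≤ Nat.log 2 (n / 2) := Nat.log_mono_right (by omega)
      have j1 : 5 * S₁.card * Nat.log 2 S₁.card ≤ 5 * S₁.card * Nat.log 2 (n / 2) :=
        Nat.mul_le_mul_left _ l1
      have j2 : 5 * S₂.card * Nat.log 2 S₂.card ≤ 5 * S₂.card * Nat.log 2 (n / 2) :=
        Nat.mul_le_mul_left _ l2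
      have j3 : 5 * S₁.card * Nat.log 2 (n / 2) + 5 * S₂.card * Nat.log 2 (n / 2) ≤
          5 * n * Nat.log 2 (n / 2) := by
        rw [← add_mul]
        exact Nat.mul_le_mul_right _ (by omega)
      rw [hL, mul_add, mul_one]
      omega

end Pool.Agent.MP_245544_coT
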