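import Pool.Agent.Lib.MP_245544_coT.Local
import Pool.Agent.Lib.MP_245544_coT.Keys

namespace Pool.Agent.MP_245544_coT

variable {V : Type} {G : SimpleGraph V}

/-- Edges inside `S` with key above `q₀` that touch a vertex which has an edge inside `S` with key
`≤ q₀`. -/
theorem touch_bound [Fintype V] [DecidableEq V] (D : Drawing G) (hD : D.NearPlane 4) (col : V → Bool)
    (hcol : ∀ u v, G.Adj u v → col u ≠ col v) {key : Sym2 V → ℝ × ℝ}
    (hkey : ∀ e ∈ G.edgeSet, key e ∈ D.arc e ∧ ∀ z ∈ D.arc e, toLex (key e) ≤ toLex z)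
    (S : Finset V) (q₀ : ℝ × ℝ) (T : Finset (Sym2 V)) (hT : T ⊆ edgesIn G S)
    (h1 : ∀ e ∈ T, toLex q₀ < toLex (key e))
    (h2 : ∀ e ∈ T, ∃ w ∈ e, ∃ e' ∈ edgesIn G S, w ∈ e' ∧ toLex (key e') ≤ toLex q₀) :
    T.card ≤ 4 * S.card := by
  classical
  obtain ⟨δ, c, hδ, hc⟩ := D.exists_halfplane hkey q₀
  have hTG : ∀ e ∈ T, e ∈ G.edgeSet := fun e he => (mem_edgesIn.1 (hT he)).1
  have hTS : ∀ e ∈ T, ∀ v ∈ e, v ∈ S := fun e he => (mem_edgesIn.1 (hT he)).2
  let H : Bool → Finset (V × V) := fun b => Finset.univ.filter (fun x : V × V =>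
    s(x.1, x.2) ∈ T ∧ col x.2 = b ∧ ∃ e' ∈ edgesIn G S, x.2 ∈ e' ∧ toLex (key e') ≤ toLex q₀)
  have hmem : ∀ b x, x ∈ H b ↔ (s(x.1, x.2) ∈ T ∧ col x.2 = b ∧
      ∃ e' ∈ edgesIn G S, x.2 ∈ e' ∧ toLex (key e') ≤ toLex q₀) := by
    intro b x
    simp [H]
  have hb : ∀ b, (H b).card ≤ 3 * (S.filter (fun v => ¬ col v = b)).card +
      (S.filter (fun v => col v = b)).card := by
    intro b
    have h3 := local_bound D hD col hcol hc b (H b) ?_ ?_
    · have h4 : ((H b).image Prod.fst).card ≤ (S.filter (fun v => ¬ col v = b)).card := by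
        apply Finset.card_le_card
        intro v hv
        obtain ⟨x, hx, rfl⟩ := Finset.mem_image.1 hv
        obtain ⟨hx1, hx2, _⟩ := (hmem b x).1 hx
        rw [Finset.mem_filter]
        refine ⟨hTS _ hx1 _ (Sym2.mem_mk_left _ _), ?_⟩
        rw [← hx2]
        exact hcol _ _ (hTG _ hx1)
      have h5 : ((H b).image Prod.snd).card ≤ (S.filter (fun v => col v = b)).card := by
        apply Finset.card_le_card
        intro v hv
        obtain ⟨x, hx, rfl⟩ := Finset.mem_image.1 hv
        obtain ⟨hx1, hx2, _⟩ := (hmem b x).1 hx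
        rw [Finset.mem_filter]
        exact ⟨hTS _ hx1 _ (Sym2.mem_mk_right _ _), hx2⟩
      omega
    · intro x hx
      obtain ⟨hx1, hx2, _⟩ := (hmem b x).1 hx
      refine ⟨hTG _ hx1, hx2, fun z hz => ?_⟩
      by_contra hcon
      have h6 := (hδ _ (hTG _ hx1)).1 ⟨z, hz, not_lt.1 hcon⟩
      exact absurd (h1 _ hx1) (not_lt.2 h6)
    · intro x hx
      obtain ⟨_, _, e', he', hxe, hk⟩ := (hmem b x).1 hx
      obtain ⟨z, rfl⟩ := hxe
      have h6 : s(x.2, z) ∈ G.edgeSet := (mem_edgesIn.1 he').1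
      exact ⟨z, h6, (hδ _ h6).2 hk⟩
  have hT' : T ⊆ (H true ∪ H false).image (fun x => s(x.1, x.2)) := by
    intro e he
    obtain ⟨w, hw, e', he', hwe, hk⟩ := h2 e he
    obtain ⟨p, rfl⟩ := hw
    rw [Finset.mem_image]
    have hpw : s(p, w) ∈ T := by rw [Sym2.eq_swap]; exact he
    refine ⟨(p, w), ?_, Sym2.eq_swap⟩
    rw [Finset.mem_union, hmem, hmem]
    rcases Bool.eq_false_or_eq_true (col w) with h | h
    · left
      exact ⟨hpw, h, e', he', hwe, hk⟩
    · right
      exact ⟨hpw, h, e', he', hwe, hk⟩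
  have h7 : T.card ≤ (H true).card + (H false).card :=
    (Finset.card_le_card hT').trans (Finset.card_image_le.trans (Finset.card_union_le _ _))
  have h8 := hb true
  have h9 := hb false
  have h10 : (S.filter (fun v => col v = true)).card + (S.filter (fun v => ¬ col v = true)).card =
      S.card := Finset.card_filter_add_card_filter_not (fun v => col v = true)
  have h11 : (S.filter (fun v => col v = false)).card + (S.filter (fun v => ¬ col v = false)).card =
      S.card := Finset.card_filter_add_card_filter_not (fun v => col v = false)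
  have h12 : (S.filter (fun v => ¬ col v = true)).card = (S.filter (fun v => col v = false)).card := by
    congr 1
    apply Finset.filter_congr
    intro v _
    simp
  omega

end Pool.Agent.MP_245544_coT
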